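import Mathlib

set_option autoImplicit false

namespace Pool.Agent.Results.MP_590c78_gt.PerfectPreimage

open Set Filter Topology

universe u v w

/-- `C_p(X)`: the set of continuous functions `X → ℝ`, with the topology of pointwise convergence
(as a subspace of the product `X → ℝ`). -/
abbrev Cp (X : Type u) [TopologicalSpace X] : Type u := {f : X → ℝ // Continuous f}

/-- `A` is countably compact in `Z`: every infinite subset of `A` has an accumulation point in
`Z`. -/
def CountablyCompactIn {Z : Type u} [TopologicalSpace Z] (A : Set Z) : Prop :=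
  ∀ B : Set Z, B ⊆ A → B.Infinite → ∃ z : Z, AccPt z (𝓟 B)

/-- `Z` is a g-space: the closure of every set that is countably compact in `Z` is compact. -/
def IsGSpace (Z : Type u) [TopologicalSpace Z] : Prop :=
  ∀ A : Set Z, CountablyCompactIn A → IsCompact (closure A)

/-- `X` is weakly Grothendieck: `C_p(X)` is a g-space. -/
def WeaklyGrothendieck (X : Type u) [TopologicalSpace X] : Prop := IsGSpace (Cp X)

/-- `X` is Grothendieck: every subspace of `C_p(X)` is a g-space. -/
def Grothendieck (X : Type u) [TopologicalSpace X] : Prop := ∀ S : Set (Cp X), IsGSpace S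

/-- `f` is a perfect map: continuous, closed, surjective, with compact fibers. -/
def PerfectMap {X : Type u} {Y : Type v} [TopologicalSpace X] [TopologicalSpace Y]
    (f : X → Y) : Prop :=
  Continuous f ∧ IsClosedMap f ∧ Function.Surjective f ∧ ∀ y : Y, IsCompact (f ⁻¹' {y})

/-- sequences with values in a countably compact set have cluster points -/
theorem exists_cluster {Z : Type u} [TopologicalSpace Z] [T1Space Z] (A : Set Z)
    (hA : CountablyCompactIn A) (v : ℕ → Z) (hv : ∀ n, v n ∈ A) :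
    ∃ g : Z, ∀ U ∈ 𝓝 g, ∃ᶠ n in atTop, v n ∈ U := by
  by_cases hfin : (Set.range v).Finite
  · by_contra hcon
    push Not at hcon
    have h1 : ∀ g : Z, ∀ᶠ n in atTop, v n ≠ g := by
      intro g
      obtain ⟨U, hU, hUn⟩ := hcon g
      filter_upwards [hUn] with n hn h
      rw [h] at hn
      exact hn (mem_of_mem_nhds hU)
    have h2 : ∀ᶠ n in atTop, ∀ g ∈ Set.range v, v n ≠ g := by
      rw [Filter.eventually_all_finite hfin]
      intro g _
      exact h1 g
    obtain ⟨n, hn⟩ := h2.exists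
    exact hn (v n) ⟨n, rfl⟩ rfl
  · obtain ⟨g, hg⟩ := hA (Set.range v) (by rintro _ ⟨n, rfl⟩; exact hv n) hfin
    refine ⟨g, fun U hU => ?_⟩
    rw [Filter.frequently_atTop]
    intro N
    rw [accPt_iff_nhds] at hg
    have hfinset : ((v '' Set.Iio N) \ {g}).Finite := ((Set.finite_Iio N).image v).sdiff
    have hU' : U ∩ ((v '' Set.Iio N) \ {g})ᶜ ∈ 𝓝 g := by
      apply Filter.inter_mem hU
      apply hfinset.isClosed.isOpen_compl.mem_nhds
      intro h
      exact h.2 rfl
    obtain ⟨y, ⟨⟨hyU, hyc⟩, ⟨n, rfl⟩⟩, hne⟩ := hg _ hU'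
    refine ⟨n, ?_, hyU⟩
    by_contra hlt
    push Not at hlt
    exact hyc ⟨⟨n, hlt, rfl⟩, hne⟩

/-- every sequence of elements of `A` has a cluster point in `S` -/
def SC {X : Type u} (S A : Set (X → ℝ)) : Prop :=
  ∀ w : ℕ → X → ℝ, (∀ n, w n ∈ A) → ∃ g ∈ S, MapClusterPt g atTop w

/-- reformulation of the Grothendieck property -/
def GG (X : Type u) [TopologicalSpace X] : Prop :=
  ∀ S A : Set (X → ℝ), (∀ f ∈ S, Continuous f) → SC S A → closure A ⊆ S

theorem mem_cl_iff {X : Type u} (A : Set (X → ℝ)) (F : X → ℝ) :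
    F ∈ closure A ↔ ∀ (E : Finset X) (ε : ℝ), 0 < ε → ∃ f ∈ A, ∀ x ∈ E, |f x - F x| < ε := by
  constructor
  · intro hF E ε hε
    have hopen : IsOpen {G : X → ℝ | ∀ x ∈ E, |G x - F x| < ε} := by
      have : {G : X → ℝ | ∀ x ∈ E, |G x - F x| < ε} = ⋂ x ∈ E, {G : X → ℝ | |G x - F x| < ε} := by
        ext; simp
      rw [this]
      apply isOpen_biInter_finset
      intro x _
      exact isOpen_lt (((continuous_apply x).sub continuous_const).abs) continuous_const
    obtain ⟨f, hG, hf⟩ := mem_closure_iff.mp hF _ hopen (by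
      intro x _
      simpa using hε)
    exact ⟨f, hf, hG⟩
  · intro h
    rw [mem_closure_iff]
    intro O hO hFO
    obtain ⟨I, W, hW, hI⟩ := isOpen_pi_iff.mp hO F hFO
    have h1 : ∀ᶠ ε in 𝓝[>] (0:ℝ), ∀ a ∈ I, Metric.ball (F a) ε ⊆ W a := by
      rw [Filter.eventually_all_finset]
      intro a ha
      obtain ⟨ε0, hε0, hb⟩ := Metric.isOpen_iff.mp (hW a ha).1 (F a) (hW a ha).2
      filter_upwards [Ioo_mem_nhdsGT hε0] with ε hε
      exact (Metric.ball_subset_ball hε.2.le).trans hb
    obtain ⟨ε, h2, hε⟩ := (h1.and (self_mem_nhdsWithin)).exists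
    obtain ⟨f, hf, hfε⟩ := h I ε hε
    refine ⟨f, hI ?_, hf⟩
    intro a ha
    apply h2 a ha
    rw [Metric.mem_ball, Real.dist_eq]
    exact hfε a ha

theorem SC.bdd {X : Type u} {S A : Set (X → ℝ)} (h : SC S A) (x : X) : ∃ M : ℝ, ∀ f ∈ A, |f x| ≤ M := by
  by_contra hcon
  push Not at hcon
  choose v hvA hv using fun n : ℕ => hcon n
  obtain ⟨g, _, hg⟩ := h v hvA
  have hopen : IsOpen {G : X → ℝ | |G x - g x| < 1} :=
    isOpen_lt (((continuous_apply x).sub continuous_const).abs) continuous_const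
  have h1 := mapClusterPt_iff_frequently.mp hg _ (hopen.mem_nhds (by
    show |g x - g x| < 1
    simp))
  obtain ⟨N, hN⟩ := exists_nat_ge (|g x| + 1)
  obtain ⟨n, hn, hn2⟩ := (h1.and_eventually (eventually_ge_atTop N)).exists
  have hn' : |v n x - g x| < 1 := hn
  have h3 := hv n
  have h4 : |v n x| ≤ |v n x - g x| + |g x| := by
    have := abs_add_le (v n x - g x) (g x)
    simpa using this
  have h5 : (N : ℝ) ≤ n := by exact_mod_cast hn2
  linarith

theorem groth_of_GG {X : Type u} [TopologicalSpace X] (hX : GG X) : Grothendieck X := by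
  intro S A hA
  let ι : S → (X → ℝ) := fun a => a.1.1
  have hι : IsEmbedding ι := IsEmbedding.subtypeVal.comp IsEmbedding.subtypeVal
  have hSC : SC (Set.range ι) (ι '' A) := by
    intro w hw
    choose w' hw'A hw' using hw
    obtain ⟨g, hg⟩ := exists_cluster A hA w' hw'A
    refine ⟨ι g, ⟨g, rfl⟩, ?_⟩
    rw [mapClusterPt_iff_frequently]
    intro U hU
    refine (hg (ι ⁻¹' U) (hι.continuous.continuousAt.preimage_mem_nhds hU)).mono fun n hn => ?_
    rw [← hw' n]
    exact hn
  choose M hM using hSC.bdd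
  have hKc : IsCompact (closure (ι '' A)) := by
    apply IsCompact.of_isClosed_subset (isCompact_univ_pi (fun x => isCompact_Icc (a := -M x) (b := M x))) isClosed_closure
    apply closure_minimal _ (isClosed_set_pi fun x _ => isClosed_Icc)
    intro f hf x _
    exact abs_le.mp (hM x f hf)
  have hrange : closure (ι '' A) ⊆ Set.range ι := by
    apply hX _ _ _ hSC
    rintro _ ⟨a, rfl⟩
    exact a.1.2
  rw [hι.isCompact_iff]
  have : ι '' closure A = closure (ι '' A) := by
    rw [hι.closure_eq_preimage_closure_image, Set.image_preimage_eq_of_subset hrange]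
  rw [this]
  exact hKc


/-- a cluster point of a pointwise convergent sequence -/
theorem cluster_eq {X : Type u} {w : ℕ → X → ℝ} {g : X → ℝ} (h : MapClusterPt g atTop w) (x : X)
    (c : ℝ) (hc : Tendsto (fun n => w n x) atTop (𝓝 c)) : g x = c := by
  have h1 : MapClusterPt (g x) atTop ((fun f : X → ℝ => f x) ∘ w) :=
    h.continuousAt_comp (continuous_apply x).continuousAt
  have h2 : ClusterPt (g x) (map ((fun f : X → ℝ => f x) ∘ w) atTop) := h1
  have h3 : ClusterPt (g x) (𝓝 c) := h2.mono hc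
  exact eq_of_nhds_neBot h3

/-- separable spaces are Grothendieck -/
theorem GG_of_sep {Y : Type u} [TopologicalSpace Y] [TopologicalSpace.SeparableSpace Y] : GG Y := by
  classical
  intro S A hS h F hF
  rcases isEmpty_or_nonempty Y with hE | ⟨⟨y0⟩⟩
  · obtain ⟨f, hf⟩ := closure_nonempty_iff.1 ⟨F, hF⟩
    obtain ⟨g, hg, _⟩ := h (fun _ => f) (fun _ => hf)
    have : F = g := funext fun y => (hE.false y).elim
    rw [this]; exact hg
  haveI : Nonempty Y := ⟨y0⟩
  let q := TopologicalSpace.denseSeq Y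
  have hq : DenseRange q := TopologicalSpace.denseRange_denseSeq Y
  have key : ∀ y : Y, ∃ g ∈ S, (∀ i, g (q i) = F (q i)) ∧ g y = F y := by
    intro y
    have h1 : ∀ n : ℕ, ∃ f ∈ A, ∀ x ∈ insert y ((Finset.range (n+1)).image q),
        |f x - F x| < 1 / ((n : ℝ) + 1) :=
      fun n => (mem_cl_iff A F).1 hF _ _ (by positivity)
    choose w hwA hw using h1
    obtain ⟨g, hg, hcl⟩ := h w hwA
    have hlim : ∀ x, (∀ᶠ n in atTop, |w n x - F x| < 1 / ((n : ℝ) + 1)) → g x = F x := by
      intro x hx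
      apply cluster_eq hcl
      rw [tendsto_iff_dist_tendsto_zero]
      refine squeeze_zero' (Filter.Eventually.of_forall fun n => dist_nonneg) ?_
        tendsto_one_div_add_atTop_nhds_zero_nat
      filter_upwards [hx] with n hn
      rw [Real.dist_eq]
      exact hn.le
    refine ⟨g, hg, fun i => ?_, ?_⟩
    · apply hlim
      filter_upwards [eventually_ge_atTop i] with n hn
      apply hw n
      apply Finset.mem_insert_of_mem
      exact Finset.mem_image.2 ⟨i, Finset.mem_range.2 (by omega), rfl⟩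
    · apply hlim
      exact Filter.Eventually.of_forall fun n => hw n y (Finset.mem_insert_self _ _)
  obtain ⟨g0, hg0, hg0q, _⟩ := key y0
  have : F = g0 := by
    funext y
    obtain ⟨g, hg, hgq, hgy⟩ := key y
    have heq : g = g0 := by
      apply Continuous.ext_on hq (hS g hg) (hS g0 hg0)
      rintro _ ⟨i, rfl⟩
      rw [hgq i, hg0q i]
    rw [← hgy, heq]
  rw [this]
  exact hg0

section example1

open Classical in
/-- the countable dense set of `ℝ → Bool` -/
noncomputable def qq (s : Finset (ℚ × ℚ)) : ℝ → Bool :=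
  fun t => decide (∃ p ∈ s, (p.1 : ℝ) < t ∧ t < (p.2 : ℝ))

theorem qq_dense (x : ℝ → Bool) (F : Finset ℝ) : ∃ s : Finset (ℚ × ℚ), ∀ t ∈ F, qq s t = x t := by
  classical
  have h1 : ∀ t : ℝ, ∃ p : ℚ × ℚ, ((p.1 : ℝ) < t ∧ t < (p.2 : ℝ)) ∧
      ∀ r ∈ F, r ≠ t → ¬ ((p.1 : ℝ) < r ∧ r < (p.2 : ℝ)) := by
    intro t
    have hcl : IsClosed ((F.erase t : Finset ℝ) : Set ℝ) := (F.erase t).finite_toSet.isClosed
    have hmem : ((F.erase t : Finset ℝ) : Set ℝ)ᶜ ∈ 𝓝 t := by
      apply hcl.isOpen_compl.mem_nhds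
      simp
    obtain ⟨ε, hε, hball⟩ := Metric.mem_nhds_iff.1 hmem
    obtain ⟨a, ha1, ha2⟩ := exists_rat_btwn (show t - ε < t by linarith)
    obtain ⟨b, hb1, hb2⟩ := exists_rat_btwn (show t < t + ε by linarith)
    refine ⟨(a, b), ⟨ha2, hb1⟩, fun r hr hrt hh => ?_⟩
    have hr2 : r ∈ Metric.ball t ε := by
      rw [Metric.mem_ball, Real.dist_eq, abs_lt]
      have h3 : (a : ℝ) < r := hh.1
      have h4 : r < (b : ℝ) := hh.2
      constructor <;> linarith
    have h5 := hball hr2
    apply h5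
    simp [hr, hrt]
  choose p hp1 hp2 using h1
  refine ⟨(F.filter (fun t => x t = true)).image p, fun t ht => ?_⟩
  unfold qq
  by_cases hx : x t = true
  · rw [hx, decide_eq_true_eq]
    exact ⟨p t, Finset.mem_image.2 ⟨t, Finset.mem_filter.2 ⟨ht, hx⟩, rfl⟩, hp1 t⟩
  · have hx' : x t = false := by simpa using hx
    rw [hx', decide_eq_false_iff_not]
    rintro ⟨r, hr, h12⟩
    obtain ⟨r', hr', rfl⟩ := Finset.mem_image.1 hr
    have hr2 := Finset.mem_filter.1 hr'
    by_cases hne : t = r'
    · rw [hne] at hx; exact hx hr2.2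
    · exact hp2 r' t ht hne h12

theorem exists_pi : ∃ π : ℝ → (ℕ → ℝ), Function.Surjective π := by
  have h : Cardinal.mk (ℕ → ℝ) ≤ Cardinal.mk ℝ := by
    rw [Cardinal.mk_real, ← Cardinal.power_def, Cardinal.mk_real, Cardinal.mk_nat,
      Cardinal.continuum_power_aleph0]
  obtain ⟨e⟩ := h
  exact ⟨Function.invFun e, Function.invFun_surjective e.injective⟩

noncomputable def pp : ℝ → (ℕ → ℝ) := Classical.choose exists_pi
theorem pp_surj : Function.Surjective pp := Classical.choose_spec exists_pi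

open Classical in
/-- the points -/
noncomputable def dd (α : ℝ) : ℝ → Bool := fun t => decide (α ∈ Set.range (pp t))

def zz : ℝ → Bool := fun _ => false

theorem dd_ne_zz (α : ℝ) : dd α ≠ zz := by
  intro h
  obtain ⟨t, ht⟩ := pp_surj (fun _ => α)
  have h1 := congrFun h t
  unfold dd zz at h1
  rw [decide_eq_false_iff_not, ht] at h1
  exact h1 ⟨0, rfl⟩

theorem dd_inj : Function.Injective dd := by
  intro α β h
  obtain ⟨t, ht⟩ := pp_surj (fun _ => α)
  have h1 := congrFun h t
  unfold dd at h1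
  rw [decide_eq_decide, ht] at h1
  obtain ⟨n, hn⟩ := h1.1 ⟨0, rfl⟩
  exact hn

/-- the bottom level -/
def D0 : Set (ℝ → Bool) := {x | x = zz ∨ ∃ α, x = dd α}

/-- the separable space -/
def YY : Set ((ℝ → Bool) × ℝ) :=
  {z | (z.2 = 0 ∧ z.1 ∈ D0) ∨ ∃ (n : ℕ) (s : Finset (ℚ × ℚ)), z = (qq s, 1 / ((n : ℝ) + 1))}

instance : TopologicalSpace.SeparableSpace YY := by
  classical
  let e : ℕ × Finset (ℚ × ℚ) → YY := fun m => ⟨(qq m.2, 1 / ((m.1 : ℝ) + 1)), Or.inr ⟨m.1, m.2, rfl⟩⟩
  refine ⟨Set.range e, Set.countable_range e, ?_⟩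
  rw [dense_iff_inter_open]
  rintro U hU ⟨z, hz⟩
  rcases z with ⟨⟨x, s⟩, h | ⟨n, t, h⟩⟩
  · obtain ⟨h0, hx⟩ := h
    simp only at h0
    subst h0
    obtain ⟨O, hO, hOU⟩ := isOpen_induced_iff.1 hU
    have hm : ((x, (0:ℝ)) : (ℝ → Bool) × ℝ) ∈ O := by
      have : (⟨(x, 0), Or.inl ⟨rfl, hx⟩⟩ : YY) ∈ Subtype.val ⁻¹' O := by rw [hOU]; exact hz
      exact this
    obtain ⟨u, hu, v, hv, huv⟩ := mem_nhds_prod_iff.1 (hO.mem_nhds hm)
    obtain ⟨u', hu'u, hu', hxu'⟩ := mem_nhds_iff.1 hu
    obtain ⟨I, w, hw, hI⟩ := isOpen_pi_iff.1 hu' x hxu'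
    obtain ⟨s, hs⟩ := qq_dense x I
    have hlim : Tendsto (fun n : ℕ => 1 / ((n : ℝ) + 1)) atTop (𝓝 0) :=
      tendsto_one_div_add_atTop_nhds_zero_nat
    obtain ⟨n, hn⟩ := (hlim.eventually hv).exists
    refine ⟨e (n, s), ?_, ⟨(n, s), rfl⟩⟩
    rw [← hOU]
    show (qq s, 1 / ((n : ℝ) + 1)) ∈ O
    apply huv
    refine ⟨hu'u (hI ?_), hn⟩
    intro t ht
    show qq s t ∈ w t
    rw [hs t ht]
    exact (hw t ht).2
  · refine ⟨_, hz, ⟨(n, t), ?_⟩⟩
    apply Subtype.ext
    exact h.symm

/-- the closed subspace of `YY` -/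
def DD : Set YY := {z | z.1.2 = 0}

theorem DD_closed : IsClosed DD :=
  isClosed_eq (continuous_snd.comp continuous_subtype_val) continuous_const

theorem DD_mem (z : DD) : z.1.1.1 ∈ D0 := by
  rcases z with ⟨⟨⟨x, s⟩, h | ⟨n, t, h⟩⟩, h0⟩
  · exact h.2
  · exfalso
    have h1 : s = 0 := h0
    have h2 : s = 1 / ((n : ℝ) + 1) := (Prod.ext_iff.1 h).2
    have h3 : (0 : ℝ) < 1 / ((n : ℝ) + 1) := by positivity
    linarith

/-- the points of `DD` -/
noncomputable def pd (α : ℝ) : DD := ⟨⟨(dd α, 0), Or.inl ⟨rfl, Or.inr ⟨α, rfl⟩⟩⟩, rfl⟩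
noncomputable def p0 : DD := ⟨⟨(zz, 0), Or.inl ⟨rfl, Or.inl rfl⟩⟩, rfl⟩

instance sumCR {X Y : Type} [TopologicalSpace X] [TopologicalSpace Y] [CompletelyRegularSpace X]
    [CompletelyRegularSpace Y] : CompletelyRegularSpace (X ⊕ Y) := by
  constructor
  intro x K hK hx
  rcases x with x | x
  · obtain ⟨f, hf, hfx, hfK⟩ := CompletelyRegularSpace.completely_regular x (Sum.inl ⁻¹' K)
      (hK.preimage continuous_inl) hx
    refine ⟨Sum.elim f (fun _ => 1), hf.sumElim continuous_const, hfx, ?_⟩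
    intro y hy
    rcases y with y | y
    · exact hfK hy
    · rfl
  · obtain ⟨f, hf, hfx, hfK⟩ := CompletelyRegularSpace.completely_regular x (Sum.inr ⁻¹' K)
      (hK.preimage continuous_inr) hx
    refine ⟨Sum.elim (fun _ => 1) f, continuous_const.sumElim hf, hfx, ?_⟩
    intro y hy
    rcases y with y | y
    · rfl
    · exact hfK hy

instance sumT35 {X Y : Type} [TopologicalSpace X] [TopologicalSpace Y] [T35Space X]
    [T35Space Y] : T35Space (X ⊕ Y) where

abbrev XX : Type := YY ⊕ DD

def ff : XX → YY := Sum.elim id (fun d => d.1)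

theorem ff_perfect : PerfectMap ff := by
  refine ⟨continuous_id.sumElim continuous_subtype_val, ?_, ?_, ?_⟩
  · intro C hC
    have : ff '' C = (Sum.inl ⁻¹' C) ∪ (Subtype.val '' (Sum.inr ⁻¹' C : Set DD)) := by
      ext y
      constructor
      · rintro ⟨x | x, hx, rfl⟩
        · exact Or.inl hx
        · exact Or.inr ⟨x, hx, rfl⟩
      · rintro (h | ⟨x, hx, rfl⟩)
        · exact ⟨Sum.inl y, h, rfl⟩
        · exact ⟨Sum.inr x, hx, rfl⟩
    rw [this]
    exact (hC.preimage continuous_inl).union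
      (DD_closed.isClosedEmbedding_subtypeVal.isClosedMap _ (hC.preimage continuous_inr))
  · intro y
    exact ⟨Sum.inl y, rfl⟩
  · intro y
    apply Set.Finite.isCompact
    have : ff ⁻¹' {y} ⊆ {Sum.inl y} ∪ Sum.inr '' (Subtype.val ⁻¹' {y} : Set DD) := by
      rintro (x | x) hx
      · left
        have : x = y := hx
        rw [this]; rfl
      · right
        exact ⟨x, hx, rfl⟩
    refine Set.Finite.subset ?_ this
    refine (Set.finite_singleton _).union (Set.Finite.image _ ?_)
    apply Set.Finite.preimage Subtype.val_injective.injOn (Set.finite_singleton y)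

open Classical in
/-- indicator function of `E` on the second summand -/
noncomputable def fE (E : Set ℝ) : XX → ℝ :=
  Sum.elim (fun _ => 0) (fun d => if ∃ α ∈ E, d.1.1.1 = dd α then 1 else 0)

theorem fE_inl (E : Set ℝ) (y : YY) : fE E (Sum.inl y) = 0 := rfl

open Classical in
theorem fE_pos (E : Set ℝ) (d : DD) (h : ∃ α ∈ E, d.1.1.1 = dd α) : fE E (Sum.inr d) = 1 := by
  show (if ∃ α ∈ E, d.1.1.1 = dd α then (1:ℝ) else 0) = 1
  rw [if_pos h]

open Classical in
theorem fE_neg (E : Set ℝ) (d : DD) (h : ¬ ∃ α ∈ E, d.1.1.1 = dd α) : fE E (Sum.inr d) = 0 := by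
  show (if ∃ α ∈ E, d.1.1.1 = dd α then (1:ℝ) else 0) = 0
  rw [if_neg h]

theorem fE_cont (E : Set ℝ) (hE : E.Countable) : Continuous (fE E) := by
  classical
  rcases Set.eq_empty_or_nonempty E with rfl | hne
  · have : fE ∅ = fun _ => 0 := by
      funext x
      rcases x with x | x
      · rfl
      · apply fE_neg
        rintro ⟨α, h, _⟩
        exact h
    rw [this]
    exact continuous_const
  · obtain ⟨a, ha⟩ := hE.exists_eq_range hne
    obtain ⟨t, ht⟩ := pp_surj a
    have : fE E = Sum.elim (fun _ => 0) (fun d : DD => if d.1.1.1 t = true then (1:ℝ) else 0) := by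
      funext x
      rcases x with x | d
      · rfl
      · show fE E (Sum.inr d) = if d.1.1.1 t = true then (1:ℝ) else 0
        by_cases h : ∃ α ∈ E, d.1.1.1 = dd α
        · rw [fE_pos E d h]
          obtain ⟨α, hα, h1⟩ := h
          rw [if_pos]
          rw [h1]
          unfold dd
          rw [decide_eq_true_eq, ht, ← ha]
          exact hα
        · rw [fE_neg E d h, if_neg]
          intro h2
          rcases DD_mem d with h3 | ⟨α, h3⟩
          · rw [h3] at h2
            exact Bool.noConfusion h2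
          · apply h
            refine ⟨α, ?_, h3⟩
            rw [h3] at h2
            unfold dd at h2
            rw [decide_eq_true_eq, ht, ← ha] at h2
            exact h2
    rw [this]
    apply Continuous.sumElim continuous_const
    exact (continuous_of_discreteTopology (f := fun b : Bool => if b = true then (1:ℝ) else 0)).comp
      ((continuous_apply t).comp (continuous_fst.comp
        (continuous_subtype_val.comp continuous_subtype_val)))

theorem p0_mem_closure : p0 ∈ closure (Set.range pd) := by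
  classical
  rw [mem_closure_iff]
  intro O hO hp
  obtain ⟨O1, hO1, hOe⟩ := isOpen_induced_iff.1 hO
  obtain ⟨O2, hO2, hOe2⟩ := isOpen_induced_iff.1 hO1
  have hm : ((zz, (0:ℝ)) : (ℝ → Bool) × ℝ) ∈ O2 := by
    rw [← hOe, ← hOe2] at hp
    exact hp
  obtain ⟨u, hu, v, hv, huv⟩ := mem_nhds_prod_iff.1 (hO2.mem_nhds hm)
  obtain ⟨u', hu'u, hu', hxu'⟩ := mem_nhds_iff.1 hu
  obtain ⟨I, w, hw, hI⟩ := isOpen_pi_iff.1 hu' zz hxu'
  have hcount : (⋃ t ∈ I, Set.range (pp t)).Countable :=
    Set.Countable.biUnion I.countable_toSet fun t _ => Set.countable_range _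
  obtain ⟨α, hα⟩ : ∃ α : ℝ, α ∉ ⋃ t ∈ I, Set.range (pp t) := by
    by_contra hcon
    push Not at hcon
    have : (Set.univ : Set ℝ).Countable := hcount.mono fun x _ => hcon x
    exact Cardinal.not_countable_real this
  refine ⟨pd α, ?_, ⟨α, rfl⟩⟩
  rw [← hOe, ← hOe2]
  show (dd α, (0:ℝ)) ∈ O2
  apply huv
  refine ⟨hu'u (hI ?_), mem_of_mem_nhds hv⟩
  intro t ht
  have : dd α t = zz t := by
    unfold dd zz
    rw [decide_eq_false_iff_not]
    intro h
    exact hα (Set.mem_iUnion₂.2 ⟨t, ht, h⟩)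
  show dd α t ∈ w t
  rw [this]
  exact (hw t ht).2

/-- `C_p(X)` is not a g-space. -/
theorem not_gspace : ¬ IsGSpace (Cp XX) := by
  classical
  intro H
  let A : Set (Cp XX) := {f | ∃ (E : Set ℝ) (hE : E.Countable), f = ⟨fE E, fE_cont E hE⟩}
  have hA : CountablyCompactIn A := by
    intro B hBA hB
    have : Infinite B := hB.to_subtype
    let e := Infinite.natEmbedding B
    choose E hE hEe using fun n => hBA (e n).2
    let E' : Set ℝ := ⋃ n, E n
    have hE' : E'.Countable := Set.countable_iUnion hE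
    let Θ : (ℝ → Bool) → Cp XX := fun w =>
      ⟨fE (E' ∩ {r | w r = true}), fE_cont _ (hE'.mono Set.inter_subset_left)⟩
    have hΘ : Continuous Θ := by
      apply Continuous.subtype_mk
      apply continuous_pi
      intro x
      rcases x with y | d
      · exact continuous_const
      · by_cases h : ∃ r ∈ E', d.1.1.1 = dd r
        · obtain ⟨r, hr, h1⟩ := h
          have : (fun w : ℝ → Bool => fE (E' ∩ {r | w r = true}) (Sum.inr d)) =
              fun w => if w r = true then (1:ℝ) else 0 := by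
            funext w
            by_cases hw : w r = true
            · rw [fE_pos (E' ∩ {r | w r = true}) d ⟨r, ⟨hr, hw⟩, h1⟩, if_pos hw]
            · rw [if_neg hw]
              apply fE_neg
              rintro ⟨r', ⟨_, hr'⟩, h1'⟩
              rw [h1] at h1'
              have := dd_inj h1'
              rw [this] at hw
              exact hw hr'
          rw [this]
          exact (continuous_of_discreteTopology
            (f := fun b : Bool => if b = true then (1:ℝ) else 0)).comp (continuous_apply r)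
        · have : (fun w : ℝ → Bool => fE (E' ∩ {r | w r = true}) (Sum.inr d)) = fun _ => (0:ℝ) := by
            funext w
            apply fE_neg
            rintro ⟨r, ⟨hr, _⟩, h12⟩
            exact h ⟨r, hr, h12⟩
          rw [this]
          exact continuous_const
    have hC : IsCompact (Set.range Θ) := isCompact_range hΘ
    have hinf : (Set.range (fun n => (e n).1)).Infinite :=
      Set.infinite_range_of_injective (fun a b h => e.injective (Subtype.ext h))
    obtain ⟨z, _, hz⟩ := hinf.exists_accPt_of_subset_isCompact hC (by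
      rintro _ ⟨n, rfl⟩
      refine ⟨fun r => decide (r ∈ E n), ?_⟩
      show Θ _ = (e n).1
      rw [hEe n]
      apply Subtype.ext
      show fE (E' ∩ {r | decide (r ∈ E n) = true}) = fE (E n)
      congr 1
      ext r
      simp only [Set.mem_inter_iff, Set.mem_ofPred_eq, decide_eq_true_eq]
      constructor
      · exact fun h => h.2
      · exact fun h => ⟨Set.mem_iUnion.mpr ⟨n, h⟩, h⟩)
    refine ⟨z, hz.mono ?_⟩
    rw [Filter.principal_mono]
    rintro _ ⟨n, rfl⟩
    exact (e n).2
  have hK := H A hA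
  have hK2 : IsClosed ((fun f : Cp XX => f.1) '' closure A) :=
    (hK.image continuous_subtype_val).isClosed
  have hfull : fE Set.univ ∈ (fun f : Cp XX => f.1) '' closure A := by
    apply hK2.closure_subset_iff.mpr (Set.image_mono subset_closure)
    rw [mem_closure_iff]
    intro O hO hfO
    obtain ⟨I, w, hw, hI⟩ := isOpen_pi_iff.mp hO _ hfO
    let E : Set ℝ := ⋃ x ∈ I, {r | ∃ d : DD, x = Sum.inr d ∧ d.1.1.1 = dd r}
    have hE : E.Countable := by
      apply Set.Countable.biUnion I.countable_toSet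
      intro x _
      apply Set.Subsingleton.countable
      rintro a ⟨d, hd, hda⟩ b ⟨d', hd', hdb⟩
      have : d = d' := Sum.inr_injective (hd.symm.trans hd')
      subst this
      exact dd_inj (hda.symm.trans hdb)
    refine ⟨fE E, hI ?_, ⟨⟨fE E, fE_cont E hE⟩, ⟨E, hE, rfl⟩, rfl⟩⟩
    intro x hx
    have : fE E x = fE Set.univ x := by
      rcases x with y | d
      · rfl
      · by_cases h : ∃ r ∈ (Set.univ : Set ℝ), d.1.1.1 = dd r
        · obtain ⟨r, _, h1⟩ := h
          rw [fE_pos Set.univ d ⟨r, Set.mem_univ r, h1⟩]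
          apply fE_pos
          exact ⟨r, Set.mem_iUnion₂.mpr ⟨Sum.inr d, hx, ⟨d, rfl, h1⟩⟩, h1⟩
        · rw [fE_neg Set.univ d h]
          apply fE_neg
          rintro ⟨r, _, h12⟩
          exact h ⟨r, Set.mem_univ r, h12⟩
    rw [this]
    exact (hw x hx).2
  obtain ⟨f, _, hf⟩ := hfull
  have hcont : Continuous (fE Set.univ) := by
    rw [← hf]
    exact f.2
  -- contradiction at p0
  have hcl : IsClosed {d : DD | fE Set.univ (Sum.inr d) = 1} :=
    isClosed_eq (hcont.comp continuous_inr) continuous_const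
  have h1 : p0 ∈ {d : DD | fE Set.univ (Sum.inr d) = 1} := by
    apply hcl.closure_subset_iff.2 _ p0_mem_closure
    rintro _ ⟨α, rfl⟩
    exact fE_pos Set.univ (pd α) ⟨α, Set.mem_univ α, rfl⟩
  have h2 : fE Set.univ (Sum.inr p0) = 0 := by
    apply fE_neg
    rintro ⟨r, _, h⟩
    exact dd_ne_zz r h.symm
  have h1' : fE Set.univ (Sum.inr p0) = 1 := h1
  rw [h2] at h1'
  exact zero_ne_one h1'

end example1

theorem weakly_of_groth {X : Type u} [TopologicalSpace X] (h : Grothendieck X) : WeaklyGrothendieck X := by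
  intro A hA
  let h0 : (Set.univ : Set (Cp X)) ≃ₜ Cp X := Homeomorph.Set.univ (Cp X)
  have h1 : CountablyCompactIn (h0 ⁻¹' A) := by
    intro B hB hBinf
    obtain ⟨z, hz⟩ := hA (h0 '' B) (by rintro _ ⟨b, hb, rfl⟩; exact hB hb) (hBinf.image h0.injective.injOn)
    refine ⟨h0.symm z, ?_⟩
    rw [accPt_iff_nhds] at hz ⊢
    intro O hO
    have hO' : h0.symm ⁻¹' O ∈ 𝓝 z := h0.symm.continuous.continuousAt.preimage_mem_nhds hO
    obtain ⟨y, ⟨hyO, ⟨b, hb, rfl⟩⟩, hne⟩ := hz _ hO'
    refine ⟨b, ⟨by simpa using hyO, hb⟩, ?_⟩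
    intro hbz
    apply hne
    rw [hbz]
    simp
  have h2 := h Set.univ (h0 ⁻¹' A) h1
  have h3 := h2.image h0.continuous
  rw [h0.image_closure, h0.image_preimage] at h3
  exact h3

/-- There are a Tychonoff Grothendieck (hence also weakly Grothendieck) space `Y`, a Tychonoff space
`X` and a perfect map from `X` onto `Y` such that `X` is neither Grothendieck nor weakly
Grothendieck. -/
theorem result : ∃ (X Y : Type) (_ : TopologicalSpace X) (_ : TopologicalSpace Y) (f : X → Y),
    T35Space X ∧ T35Space Y ∧ PerfectMap f ∧ Grothendieck Y ∧ WeaklyGrothendieck Y ∧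
    ¬ Grothendieck X ∧ ¬ WeaklyGrothendieck X := by
  have hY : Grothendieck YY := groth_of_GG GG_of_sep
  refine ⟨XX, YY, inferInstance, inferInstance, ff, inferInstance, inferInstance, ff_perfect, hY,
    weakly_of_groth hY, ?_, not_gspace⟩
  intro h
  exact not_gspace (weakly_of_groth h)

end Pool.Agent.Results.MP_590c78_gt.PerfectPreimage
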